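import Pool.Agent.Lib.helper32.Tau2

set_option autoImplicit false

namespace Pool.Agent.Results.MP_24a1d9_gt.Powers

open Filter Topology Set Pool.Agent.Lib.helper32.Tau

theorem result (X : Set ℝ) (h : S1 (Z := X) Om Ta) (k : ℕ) : S1 (Z := Fin k → X) Om Ta := by
  classical
  intro 𝓤 h1
  have h2 : ∀ n, ∀ F : Finset X, ∃ V ∈ {V : Set X | IsOpen V ∧
      ∃ U ∈ 𝓤 n, Set.pi univ (fun _ => V) ⊆ U}, (F : Set X) ⊆ V := fun n F => by
    obtain ⟨U, h2, h3⟩ := (h1 n).2 (Fintype.piFinset fun _ => F)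
    have h4 : ∀ p : Fintype.piFinset fun _ : Fin k => F, ∃ W : Fin k → Set X,
        (∀ i, IsOpen (W i) ∧ p.1 i ∈ W i) ∧ Set.pi univ W ⊆ U := fun p =>
      isOpen_pi_iff'.1 ((h1 n).1.1 U h2) p.1 (h3 p.2)
    choose W h4 h5 using h4
    let N : X → Set X := fun x => ⋂ p, ⋂ i, ⋂ _ : p.1 i = x, W p i
    have h6 : ∀ x, IsOpen (N x) := fun x => isOpen_iInter_of_finite fun p =>
      isOpen_iInter_of_finite fun i => isOpen_iInter_of_finite fun _ => (h4 p i).1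
    refine ⟨⋃ x ∈ F, N x, ⟨isOpen_biUnion fun x _ => h6 x, U, h2, fun q hq => ?_⟩,
      fun x hx => mem_biUnion hx (mem_iInter.2 fun p => mem_iInter₂.2 fun i e => e ▸ (h4 p i).2)⟩
    have h7 : ∀ i, ∃ x ∈ F, q i ∈ N x := fun i => by
      obtain ⟨x, h7, h8⟩ := mem_iUnion₂.1 (hq i trivial)
      exact ⟨x, h7, h8⟩
    choose x h7 h8 using h7
    exact h5 ⟨x, Fintype.mem_piFinset.2 h7⟩ fun i _ =>
      mem_iInter₂.1 (mem_iInter.1 (h8 i) ⟨x, Fintype.mem_piFinset.2 h7⟩) i rfl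
  obtain ⟨V, h3, h4⟩ := s1_seq (fun _ _ h => h) h
    (fun n => {V | IsOpen V ∧ ∃ U ∈ 𝓤 n, Set.pi univ (fun _ => V) ⊆ U}) fun n =>
      ⟨⟨fun _ h => h.1, eq_univ_of_forall fun x => by
        obtain ⟨V, h3, h4⟩ := h2 n {x}
        exact ⟨V, h3, h4 (by simp)⟩, by
        rintro ⟨-, U, h3, h4⟩
        exact (h1 n).1.2.2 (eq_univ_of_forall (fun q => h4 fun _ _ => trivial) ▸ h3)⟩, h2 n⟩
  choose U h5 h6 using fun n => (h3 n).1.2
  exact ⟨U, h5, ga_ta (ga_range (fun n => (h1 n).1.1 _ (h5 n)) (fun n e => (h1 n).1.2.2 (e ▸ h5 n))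
    fun q => (eventually_all.2 fun i => h4 (q i)).mono fun n hn => h6 n fun i _ => hn i)⟩

end Pool.Agent.Results.MP_24a1d9_gt.Powers
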