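import Pool.Agent.Lib.helper32.TowerS

set_option autoImplicit false

namespace Pool.Agent.Results.MP_24a1d9_gt.PowersFin

open Set Pool.Agent.Lib.helper32.Tau

theorem result (hCH : Cardinal.continuum.{0} = Cardinal.aleph 1) :
    ∃ X : Set ℝ, Sfin (Z := X) Om Ta ∧ ¬ Sfin (Z := Fin 2 → X) Om Ta := by
  obtain ⟨X, C, h1, h2⟩ := ex hCH
  obtain ⟨𝓤, h3, h4⟩ := h1.sq
  refine ⟨X, h2.sfin, fun h5 => ?_⟩
  obtain ⟨𝓕, h6, h7⟩ := h5 (fun _ => 𝓤) fun _ => h3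
  exact h4 _ (iUnion_subset fun n => (h6 n).2) h7

end Pool.Agent.Results.MP_24a1d9_gt.PowersFin
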