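import Pool.Agent.Lib.helper32.Sier

set_option autoImplicit false

namespace Pool.Agent.Results.MP_24a1d9_gt.PowersTau

open Filter Topology Set Pool.Agent.Lib.helper32.Tau Pool.Agent.Lib.helper32.Hom

theorem opn {O : Set ℕ → Prop} (h : Op O) : IsOpen {z : GZ | O {i | z i = 0}} :=
  isOpen_iff_mem_nhds.2 fun z hz => by
    obtain ⟨c, hc⟩ := h _ hz
    have h1 : ∀ i ∈ Iio c, ∀ᶠ w in 𝓝 z, w i = z i := fun i _ =>
      tendsto_pure.1 (nhds_discrete (ZMod 2) ▸ (continuous_apply i).tendsto z)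
    exact ((eventually_all_finite (finite_Iio c)).2 h1).mono fun w hw =>
      hc _ fun i hi => by rw [mem_setOf_eq, mem_setOf_eq, hw i hi]

theorem result (hCH : Cardinal.continuum.{0} = Cardinal.aleph 1) :
    ∃ X : Set ℝ, S1 (Z := X) Ta Ga ∧ ¬ Sfin (Z := Fin 2 → X) Ga Cover := by
  classical
  obtain ⟨S, s1, s2, s3, s4⟩ := sier hCH
  obtain ⟨X, e, e1, e2, e3, e4, e5⟩ := wrap ((fun z : GZ => {i | z i = 0}) '' S)
  choose ζ z1 z2 using e1
  have z3 : ∀ z ∈ S, ∃ x, e x = {i | z i = 0} := fun z hz => e2 _ ⟨z, hz, rfl⟩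
  have z4 : ∀ a b : ZMod 2, (a = 0 ↔ b = 0) ↔ a = b := by decide
  have h1 : ∀ a : Set ℕ, a.Infinite → ∃ q : Fin 2 → X, ∀ i, (i ∈ e (q 0) ↔ i ∈ e (q 1)) ↔ i ∈ a :=
    fun a ha => by
      obtain ⟨x, x1, y, y1, rfl⟩ := s4 a ha
      obtain ⟨x, hx⟩ := z3 x x1
      obtain ⟨y, hy⟩ := z3 y y1
      exact ⟨![x, y], fun i => by simpa [hx, hy] using z4 _ _⟩
  have : Nonempty X := ⟨(h1 _ infinite_univ).choose 0⟩
  refine ⟨X, fun 𝓤 h => ?_, fun h => ?_⟩
  · have t1 : TG (univ : Set X) := fun V v1 v2 => by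
      choose O o1 o2 using fun k => e5 _ (v1 k)
      obtain ⟨φ, c1, c2⟩ := s2 (fun k => {z | O k {i | z i = 0}}) (fun k => opn (o1 k))
        ⟨fun z hz => by
          obtain ⟨x, hx⟩ := z3 z hz
          simpa only [mem_setOf_eq, ← hx, ← o2] using v2.1 x trivial, fun z hz w hw => by
          obtain ⟨x, hx⟩ := z3 z hz
          obtain ⟨y, hy⟩ := z3 w hw
          have c := v2.2 x trivial y trivial
          simp only [o2, hx, hy] at c
          exact c⟩
      exact ⟨φ, c1, fun x _ => (c2 _ (z1 x)).mono fun j hj => (o2 _ _).2 (z2 x ▸ hj)⟩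
    choose U u1 u2 u3 using fun n => tg_seq t1 (h n)
    choose O o1 o2 using fun n k => e5 _ ((h n).1.1 _ (u2 n k))
    obtain ⟨k, hk⟩ := s1 (fun n k => {z | O n k {i | z i = 0}}) (fun n k => opn (o1 n k))
      fun n z hz => by
        obtain ⟨x, hx⟩ := z3 z hz
        simpa only [mem_setOf_eq, ← hx, ← o2] using u3 n x
    exact ⟨fun n => U n (k n), fun n => u2 _ _, ga_range (fun n => (h n).1.1 _ (u2 _ _))
      (fun n c => (h n).1.2.2 (c ▸ u2 _ _))
      fun x => (hk _ (z1 x)).mono fun j hj => (o2 _ _ _).2 (z2 x ▸ hj)⟩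
  let U : ℕ → ℕ → Set (Fin 2 → X) := fun n m =>
    ⋃ s ∈ {s : Finset ℕ | s.card = n + 1 ∧ ∀ i ∈ s, i < m}, ⋂ i ∈ s, {q | i ∈ e (q 0) ↔ i ∈ e (q 1)}
  obtain ⟨𝓕, h2, h3⟩ := h (fun n => range (U n)) fun n => ga_range
    (fun m => isOpen_biUnion fun s _ => isOpen_biInter_finset fun i _ => by
      have c0 := (e4 i).preimage (continuous_apply (A := fun _ : Fin 2 => X) 0)
      have c1 := (e4 i).preimage (continuous_apply (A := fun _ : Fin 2 => X) 1)
      convert ((c0.inter c1).union (c0.compl.inter c1.compl)).isOpen using 1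
      ext q
      simp only [mem_setOf_eq, mem_union, mem_inter_iff, mem_preimage, mem_compl_iff]
      tauto) (fun m c => by
      obtain ⟨q, hq⟩ := h1 _ (Ici_infinite m)
      obtain ⟨s, c1, c2⟩ := mem_iUnion₂.1 (c ▸ mem_univ q : q ∈ U n m)
      obtain ⟨i, hi⟩ := Finset.card_pos.1 (c1.1 ▸ Nat.succ_pos n : 0 < s.card)
      exact (c1.2 i hi).not_ge ((hq i).1 (mem_iInter₂.1 c2 i hi))) fun q => by
      obtain ⟨s, c1, c2⟩ := (s3 _ (z1 (q 0)) _ (z1 (q 1))).exists_subset_card_eq (n + 1)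
      refine (eventually_gt_atTop (s.sup id)).mono fun m hm => mem_biUnion (x := s)
        ⟨c2, fun i hi => (Finset.le_sup (f := id) hi).trans_lt hm⟩ (mem_iInter₂.2 fun i hi => ?_)
      rw [mem_setOf_eq, ← z2, ← z2]
      exact (z4 _ _).2 (c1 hi)
  have h4 : ∀ n, ∃ g, ∀ W ∈ 𝓕 n, W ⊆ U n g := fun n =>
    ((eventually_all_finite (h2 n).1).2 fun W hW => by
      obtain ⟨m, rfl⟩ := (h2 n).2 hW
      exact (eventually_ge_atTop m).mono fun g hg => biUnion_subset_biUnion_left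
        fun s hs => ⟨hs.1, fun i hi => (hs.2 i hi).trans_le hg⟩).exists
  choose g hg using h4
  let b : ℕ → ℕ := fun n => ∑ i ∈ Finset.range (n + 1), (g i + 1)
  have b1 : StrictMono b := strictMono_nat_of_lt_succ fun n => by
    simp only [b, Finset.sum_range_succ _ (n + 1)]; omega
  obtain ⟨q, hq⟩ := h1 _ (infinite_range_of_injective b1.injective)
  obtain ⟨W, c1, c2⟩ := (h3.2.1 ▸ mem_univ q : q ∈ ⋃₀ ⋃ n, 𝓕 n)
  obtain ⟨n, hn⟩ := mem_iUnion.1 c1
  obtain ⟨s, c3, c4⟩ := mem_iUnion₂.1 (hg n W hn c2)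
  obtain ⟨i, c5, c6⟩ := Finset.exists_mem_notMem_of_card_lt_card
    (s := (Finset.range n).image b) (t := s)
    (Finset.card_image_le.trans_lt (by rw [Finset.card_range, c3.1]; omega))
  obtain ⟨j, rfl⟩ := (hq i).1 (mem_iInter₂.1 c4 i c5)
  have c7 : b n ≤ b j := b1.monotone (not_lt.1 fun c =>
    c6 (Finset.mem_image_of_mem b (Finset.mem_range.2 c)))
  have c8 := c3.2 _ c5
  simp only [b, Finset.sum_range_succ _ n] at c7 c8
  omega

end Pool.Agent.Results.MP_24a1d9_gt.PowersTau
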